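import Pool.Agent.H.MP_bb4c62_an.helper6.NFinal
import Pool.Agent.H.MP_bb4c62_an.helper6.QTop3
import Pool.Agent.H.MP_bb4c62_an.helper6.QTop4
import Pool.Agent.H.MP_bb4c62_an.helper86.G23

/-!
Complete description, for each of the two signs and for arbitrary complex Banach spaces, of the
surjective (not necessarily linear, additive or continuous) maps `φ : B(X) → B(Y)` with
`r (φ T ± φ S) = 0 ↔ r (T ± S) = 0`.
-/

namespace Pool.Agent.Results.MP_bb4c62_an.BothSigns

open Pool.Agent.H.MP_bb4c62_an.helper6.NL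
open Pool.Agent.H.MP_bb4c62_an.helper6.QT
open Pool.Agent.H.MP_bb4c62_an.helper86.PG
open scoped ENNReal

/-- `r (φ T - φ S) = 0 ↔ r (T - S) = 0` for all `T`, `S`. -/
def PreservesDifferences {X Y : Type*} [NormedAddCommGroup X] [NormedSpace ℂ X]
    [NormedAddCommGroup Y] [NormedSpace ℂ Y] (φ : (X →L[ℂ] X) → (Y →L[ℂ] Y)) : Prop :=
  ∀ T S : X →L[ℂ] X, spectralRadius ℂ (φ T - φ S) = 0 ↔ spectralRadius ℂ (T - S) = 0

/-- `r (φ T + φ S) = 0 ↔ r (T + S) = 0` for all `T`, `S`. -/
def PreservesSums {X Y : Type*} [NormedAddCommGroup X] [NormedSpace ℂ X]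
    [NormedAddCommGroup Y] [NormedSpace ℂ Y] (φ : (X →L[ℂ] X) → (Y →L[ℂ] Y)) : Prop :=
  ∀ T S : X →L[ℂ] X, spectralRadius ℂ (φ T + φ S) = 0 ↔ spectralRadius ℂ (T + S) = 0

/-- Every operator on `X` is a sum of quasinilpotent operators. -/
def Spanned (X : Type*) [NormedAddCommGroup X] [NormedSpace ℂ X] : Prop := QSpan X = ⊤

/-- The map `φ` sends the cosets of the linear span `Q(X)` of the quasinilpotent operators to such
cosets of `Y`, in both directions, and on each coset `R + Q(X)` it has one of the two explicit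
forms `φ (R + V) = φ R + c S V S⁻¹` and `φ (R + V) = φ R + c S V* S⁻¹`. -/
def HasForm {X Y : Type*} [NormedAddCommGroup X] [NormedSpace ℂ X]
    [NormedAddCommGroup Y] [NormedSpace ℂ Y] (φ : (X →L[ℂ] X) → (Y →L[ℂ] Y)) : Prop :=
  (∀ T S : X →L[ℂ] X, φ T - φ S ∈ QSpan Y ↔ T - S ∈ QSpan X) ∧
    ∀ R : X →L[ℂ] X, FormI φ R ∨ FormII φ R

/-- Let `X`, `Y` be complex Banach spaces (of arbitrary dimension) and `φ : B(X) → B(Y)` any
surjective map; `Q(X)` is the linear span of the quasinilpotent operators on `X`.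

1. `r (φ T - φ S) = 0 ↔ r (T - S) = 0` for all `T`, `S` if and only if `φ` has the form:

* `φ T - φ S` is in `Q(Y)` exactly when `T - S` is in `Q(X)`, and
* for every `R` there are a scalar `c ≠ 0`, a field automorphism `τ` of `ℂ` and either a
  `τ`-semilinear bijection `S : X → Y` such that `φ (R + V) = φ R + c S V S⁻¹`, or a
  `τ`-semilinear bijection `S : X* → Y` such that `φ (R + V) = φ R + c S V* S⁻¹`, for all `V`
  in `Q(X)`; in infinite dimension `τ` is the identity or the complex conjugation, and `S` is a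
  homeomorphism.

2. `r (φ T + φ S) = 0 ↔ r (T + S) = 0` for all `T`, `S` if and only if `φ` has this form and is
odd.

3. `Q(X) = B(X)` (so that there is only one coset) for every infinite-dimensional Hilbert space
`X`, for `X = ℓᵖ(ℕ; E)` with any Banach space `E` and `1 ≤ p ≤ ∞`, and for every `X` isomorphic to
`ℓᵖ(ℕ; X)`. -/
theorem result {X Y : Type*} [NormedAddCommGroup X] [NormedSpace ℂ X] [CompleteSpace X]
    [NormedAddCommGroup Y] [NormedSpace ℂ Y] [CompleteSpace Y]
    (φ : (X →L[ℂ] X) → (Y →L[ℂ] Y)) (hsurj : Function.Surjective φ) :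
    (PreservesDifferences φ ↔ HasForm φ) ∧
    (PreservesSums φ ↔ HasForm φ ∧ ∀ T, φ (-T) = -φ T) ∧
    (∀ (H : Type*) [NormedAddCommGroup H] [InnerProductSpace ℂ H] [CompleteSpace H],
      ¬ Module.Finite ℂ H → Spanned H) ∧
    (∀ (E : Type*) [NormedAddCommGroup E] [NormedSpace ℂ E] [CompleteSpace E] (p : ℝ≥0∞)
      [Fact (1 ≤ p)], Spanned (lp (fun _ : ℕ => E) p) ∧
        (Nonempty (E ≃L[ℂ] lp (fun _ : ℕ => E) p) → Spanned E)) :=
  ⟨main_minus φ hsurj, (main_both φ hsurj).trans and_comm, fun H _ _ _ hH => qspan_top_hilbert hH,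
    fun E _ _ _ p _ => ⟨qspan_top_lp_sum E p, fun ⟨e⟩ => qspan_top_of_lp e⟩⟩

end Pool.Agent.Results.MP_bb4c62_an.BothSigns
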