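import Pool.Agent.H.MP_bb4c62_an.JM.Main

/-!
Description, for complex Banach spaces of dimension at least four (or infinite), of the surjective
(not necessarily linear, additive or continuous) maps `φ : B(X) → B(Y)` which preserve
quasinilpotent products `T R + e R T` in both directions, where `e = 1` (Jordan product) or `e = -1`
(Lie product): `r (φ T φ R + e φ R φ T) = 0 ↔ r (T R + e R T) = 0`.
-/

namespace Pool.Agent.Results.MP_bb4c62_an.JordanLieProducts

/-- Admissible pairs: the additive bijection `S` is semilinear with respect to the field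
automorphism `τ` of `ℂ`; in infinite dimension `τ` is the identity or the complex conjugation
and `S` is a homeomorphism. -/
def Adm {Z Y : Type*} [NormedAddCommGroup Z] [NormedSpace ℂ Z] [NormedAddCommGroup Y]
    [NormedSpace ℂ Y] (τ : ℂ ≃+* ℂ) (S : Z ≃+ Y) : Prop :=
  (∀ (a : ℂ) (x : Z), S (a • x) = τ a • S x) ∧
  (¬ Module.Finite ℂ Z → ((∀ a : ℂ, τ a = a) ∨ (∀ a : ℂ, τ a = (starRingEnd ℂ) a)) ∧
    Continuous S ∧ Continuous S.symm)

/-- `φ T = c(T) S T S⁻¹ + d(T) 1` for all `T`, or `φ T = c(T) S T* S⁻¹ + d(T) 1` for all `T`, where `c` is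
a scalar function without zeros, `d` is a scalar function, arbitrary for `e = -1` and `0` otherwise,
`(τ, S)` is an admissible pair with `S : X → Y` in the first case and `S : X* → Y` in the second
case, and `T*` is the Banach space adjoint `f ↦ f ∘ T` on the dual `X*` of `X`. -/
def HasForm {X Y : Type*} [NormedAddCommGroup X] [NormedSpace ℂ X]
    [NormedAddCommGroup Y] [NormedSpace ℂ Y] (e : ℂ) (φ : (X →L[ℂ] X) → (Y →L[ℂ] Y)) : Prop :=
  ∃ c d : (X →L[ℂ] X) → ℂ, (∀ T, c T ≠ 0) ∧ (∀ T, e = -1 ∨ d T = 0) ∧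
    ((∃ (τ : ℂ ≃+* ℂ) (S : X ≃+ Y), Adm τ S ∧
        ∀ (T : X →L[ℂ] X) (x : X), φ T (S x) = c T • S (T x) + d T • S x) ∨
      (∃ (τ : ℂ ≃+* ℂ) (S : (X →L[ℂ] ℂ) ≃+ Y), Adm τ S ∧
        ∀ (T : X →L[ℂ] X) (f : X →L[ℂ] ℂ), φ T (S f) = c T • S (f.comp T) + d T • S f))

/-- Let `X`, `Y` be complex Banach spaces of dimension at least four (or infinite), `e = 1` or
`e = -1`, and `φ : B(X) → B(Y)` any surjective map. Then
`r (φ T φ R + e φ R φ T) = 0 ↔ r (T R + e R T) = 0` for all `T`, `R` in `B(X)` if and only if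
`φ T = c(T) S T S⁻¹ + d(T)` or `φ T = c(T) S T* S⁻¹ + d(T)`, with `d = 0` if `e = 1`. -/
theorem result {X Y : Type*} [NormedAddCommGroup X] [NormedSpace ℂ X] [CompleteSpace X]
    [NormedAddCommGroup Y] [NormedSpace ℂ Y] [CompleteSpace Y]
    (hX : ∃ v : Fin 4 → X, LinearIndependent ℂ v) (hY : ∃ v : Fin 4 → Y, LinearIndependent ℂ v)
    (e : ℂ) (he : e = 1 ∨ e = -1) (φ : (X →L[ℂ] X) → (Y →L[ℂ] Y))
    (hsurj : Function.Surjective φ) :
    (∀ T R : X →L[ℂ] X, spectralRadius ℂ (φ T * φ R + e • (φ R * φ T)) = 0 ↔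
      spectralRadius ℂ (T * R + e • (R * T)) = 0) ↔ HasForm e φ := by
  constructor
  · intro h
    exact Pool.Agent.H.MP_bb4c62_an.JM.form_of_pres he hX hY ⟨hsurj, h⟩
  · intro h
    exact Pool.Agent.H.MP_bb4c62_an.JM.pres_of_form he h

end Pool.Agent.Results.MP_bb4c62_an.JordanLieProducts
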