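import Pool.Agent.H.MP_bb4c62_an.QP.Main

/-!
Complete description, for arbitrary complex Banach spaces, of the surjective (not necessarily
linear, additive or continuous) maps `φ : B(X) → B(Y)` which preserve quasinilpotent products in
both directions: `r (φ T φ R) = 0 ↔ r (T R) = 0`.
-/

namespace Pool.Agent.Results.MP_bb4c62_an.QuasinilpotentProducts

/-- Admissible pairs: the additive bijection `S` is semilinear with respect to the field
automorphism `τ` of `ℂ`; in infinite dimension `τ` is the identity or the complex conjugation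
and `S` is a homeomorphism. -/
def Adm {Z Y : Type*} [NormedAddCommGroup Z] [NormedSpace ℂ Z] [NormedAddCommGroup Y]
    [NormedSpace ℂ Y] (τ : ℂ ≃+* ℂ) (S : Z ≃+ Y) : Prop :=
  (∀ (a : ℂ) (x : Z), S (a • x) = τ a • S x) ∧
  (¬ Module.Finite ℂ Z → ((∀ a : ℂ, τ a = a) ∨ (∀ a : ℂ, τ a = (starRingEnd ℂ) a)) ∧
    Continuous S ∧ Continuous S.symm)

/-- `φ T = c(T) S T S⁻¹` for all `T`, or `φ T = c(T) S T* S⁻¹` for all `T`, where `c` is a scalar
function without zeros, `(τ, S)` is an admissible pair with `S : X → Y` in the first case and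
`S : X* → Y` in the second case, and `T*` is the Banach space adjoint `f ↦ f ∘ T` on the dual `X*`
of `X`. -/
def HasForm {X Y : Type*} [NormedAddCommGroup X] [NormedSpace ℂ X]
    [NormedAddCommGroup Y] [NormedSpace ℂ Y] (φ : (X →L[ℂ] X) → (Y →L[ℂ] Y)) : Prop :=
  ∃ c : (X →L[ℂ] X) → ℂ, (∀ T, c T ≠ 0) ∧
    ((∃ (τ : ℂ ≃+* ℂ) (S : X ≃+ Y), Adm τ S ∧
        ∀ (T : X →L[ℂ] X) (x : X), φ T (S x) = c T • S (T x)) ∨
      (∃ (τ : ℂ ≃+* ℂ) (S : (X →L[ℂ] ℂ) ≃+ Y), Adm τ S ∧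
        ∀ (T : X →L[ℂ] X) (f : X →L[ℂ] ℂ), φ T (S f) = c T • S (f.comp T)))

/-- Let `X`, `Y` be complex Banach spaces (of arbitrary dimension) and `φ : B(X) → B(Y)` any
surjective map. Then `r (φ T φ R) = 0 ↔ r (T R) = 0` for all `T`, `R` in `B(X)` if and only if
`φ T = c(T) S T S⁻¹` (`S : X → Y`) or `φ T = c(T) S T* S⁻¹` (`S : X* → Y`). -/
theorem result {X Y : Type*} [NormedAddCommGroup X] [NormedSpace ℂ X] [CompleteSpace X]
    [NormedAddCommGroup Y] [NormedSpace ℂ Y] [CompleteSpace Y]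
    (φ : (X →L[ℂ] X) → (Y →L[ℂ] Y)) (hsurj : Function.Surjective φ) :
    (∀ T R : X →L[ℂ] X, spectralRadius ℂ (φ T * φ R) = 0 ↔ spectralRadius ℂ (T * R) = 0) ↔
      HasForm φ := by
  have key : ∀ T S : X →L[ℂ] X, (spectralRadius ℂ (φ T * φ S) = 0 ↔
      spectralRadius ℂ (T * S) = 0) ↔ (Pool.Agent.H.MP_bb4c62_an.QP.Prp 1 (φ T) (φ S) ↔
      Pool.Agent.H.MP_bb4c62_an.QP.Prp 1 T S) := by
    intro T S
    unfold Pool.Agent.H.MP_bb4c62_an.QP.Prp
    rw [pow_one, pow_one]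
  constructor
  · intro h
    exact Pool.Agent.H.MP_bb4c62_an.QP.form_one ⟨hsurj, fun T S => (key T S).mp (h T S)⟩
  · intro h T S
    exact (key T S).mpr (Pool.Agent.H.MP_bb4c62_an.QP.pres_of_form 1 h T S)

end Pool.Agent.Results.MP_bb4c62_an.QuasinilpotentProducts
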